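import Pool.Agent.V1157.PO.Defs
import Pool.Agent.V1157.BD.Main
import Pool.Agent.V1157.HI.Main

/-!
# Orders of poles and ranks
-/

open CategoryTheory AlgebraicGeometry

universe u v w

namespace Pool.Agent.V1157.PO

open Pool.Agent.H914 Pool.Agent.H914.VarClass Pool.Agent.H914.VarClass.Obj Pool.Agent.W492.BB
  Pool.Agent.W550.Corr Pool.Agent.TH133 Pool.Agent.Y148.BB Pool.Agent.V1157.BD
open Pool.Agent.V1157.RC (cog_gr pow_eq_sum pow_mem' act_smul' push_pull_of)
open Pool.Agent.V1157.HI (hasDegree_push hasDegree_smul)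

set_option linter.unusedSectionVars false

variable {k : Type u} [Field k] {𝒱 : VarClass k} {C : TheoryData.{u, v, 0} 𝒱 ℚ}
  [hC : IsChowProj C] {K : Type w} [Field K] {H : WeilTheoryData.{u, v, w} C K}
  [hH : IsWeilProj H] {S V X Y : 𝒱.Obj} {n r : ℕ}

include hC

lemma hasDegree_add {z w : C.A X} {q q' : ℚ} (h : HasDegree C z q) (h' : HasDegree C w q') :
    HasDegree C (z + w) (q + q') := by
  intro Y
  constructor
  · rw [map_add, map_add, (h Y).1, (h' Y).1, add_smul]
  · rw [map_add, map_add, (h Y).2, (h' Y).2, add_smul]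

lemma hasDegree_sum {ι : Type*} (s : Finset ι) {z : ι → C.A X} {q : ι → ℚ}
    (h : ∀ i ∈ s, HasDegree C (z i) (q i)) : HasDegree C (∑ i ∈ s, z i) (∑ i ∈ s, q i) := by
  classical
  induction s using Finset.induction_on with
  | empty => simpa using hasDegree_zero
  | insert i s hi ih =>
    rw [Finset.sum_insert hi, Finset.sum_insert hi]
    exact hasDegree_add (h i (Finset.mem_insert_self _ _))
      (ih fun j hj => h j (Finset.mem_insert_of_mem hj))

include hH

/-- Numerically independent cycles have a dual system. -/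
lemma exists_dual {e : ℕ} (x : Fin e → C.A X) (hx : ∀ i, C.Deg r (x i))
    (hind : ∀ α : Fin e → ℚ, NumTrivial C r (∑ i, α i • x i) → α = 0) :
    ∃ y : Fin e → C.A X, (∀ j, C.Deg (X.dim - r) (y j)) ∧
      ∀ i j, HasDegree C (x i * y j) (if i = j then 1 else 0) := by
  classical
  have hmul : ∀ i, ∀ y : C.gr X ((X.dim : ℤ) - r), x i * (y : C.A X) ∈ C.gr X X.dim := by
    intro i y
    exact gr_congr (by ring) (C.mul_mem (hx i) y.2)
  choose q hq using fun (i : Fin e) (y : C.gr X ((X.dim : ℤ) - r)) =>
    exists_hasDegree (hmul i y)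
  let ψ : C.gr X ((X.dim : ℤ) - r) →ₗ[ℚ] (Fin e → ℚ) :=
    { toFun := fun y i => q i y
      map_add' := by
        intro y y'
        funext i
        refine hasDegree_unique H (hq i (y + y')) ?_
        have := hasDegree_add (hq i y) (hq i y')
        rwa [← mul_add] at this
      map_smul' := by
        intro c y
        funext i
        refine hasDegree_unique H (hq i (c • y)) ?_
        have := hasDegree_smul c (hq i y)
        rwa [← mul_smul_comm] at this }
  have hsurj : LinearMap.range ψ = ⊤ := by
    by_contra hne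
    obtain ⟨f, hf0, hf⟩ := Submodule.exists_le_ker_of_lt_top _ (lt_top_iff_ne_top.2 hne)
    have hα : (fun i => f (Pi.single i 1)) = (0 : Fin e → ℚ) := by
      apply hind
      refine ⟨Submodule.sum_mem _ fun i _ => Submodule.smul_mem _ _ (hx i), fun y hy => ?_⟩
      have h1 := hasDegree_sum Finset.univ (fun i _ => hasDegree_smul (f (Pi.single i 1))
        (hq i ⟨y, hy⟩))
      have h2 : ∑ i, f (Pi.single i 1) * q i ⟨y, hy⟩ = 0 := by
        have h3 : f (ψ ⟨y, hy⟩) = 0 := hf ⟨_, rfl⟩
        rw [← h3, LinearMap.pi_apply_eq_sum_univ f (ψ ⟨y, hy⟩)]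
        refine Finset.sum_congr rfl fun i _ => ?_
        have h4 : (fun j => if i = j then (1 : ℚ) else 0) = Pi.single i 1 := by
          funext j
          rw [Pi.single_apply]
          by_cases h : i = j
          · rw [if_pos h, if_pos h.symm]
          · rw [if_neg h, if_neg (Ne.symm h)]
        rw [h4, smul_eq_mul, mul_comm]
        rfl
      rw [h2] at h1
      have h5 : ∑ i, f (Pi.single i 1) • (x i * y) = (∑ i, f (Pi.single i 1) • x i) * y := by
        rw [Finset.sum_mul]
        exact Finset.sum_congr rfl fun i _ => (smul_mul_assoc _ _ _).symm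
      rw [h5] at h1
      exact h1
    apply hf0
    apply LinearMap.pi_ext'
    intro i
    apply LinearMap.ext_ring
    simpa using congrFun hα i
  choose y hy using fun j : Fin e => LinearMap.range_eq_top.1 hsurj (Pi.single j 1)
  refine ⟨fun j => (y j : C.A X), fun j => (y j).2, fun i j => ?_⟩
  have h1 := hq i (y j)
  have h2 : q i (y j) = if i = j then 1 else 0 := by
    have := congrFun (hy j) i
    rw [Pi.single_apply] at this
    exact this
  rwa [h2] at h1

omit hH in
lemma num_pull (H : WeilTheoryData.{u, v, w} C K) [IsWeilProj H] {p : V ⟶ S}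
    (hS : S.dim = n) (hV : V.dim = n) {x : C.A S}
    (hx : NumTrivial C r x) : NumTrivial C r (C.pull p x) := by
  refine ⟨C.pull_mem p hx.1, fun y hy => ?_⟩
  have h1 : C.pull p x * y ∈ C.gr V V.dim :=
    gr_congr (by ring) (C.mul_mem (C.pull_mem p hx.1) hy)
  obtain ⟨q, hq⟩ := exists_hasDegree h1
  have h2 := hasDegree_push p hq
  rw [C.proj_left] at h2
  have h3 : C.Deg (S.dim - r) (C.push p y) :=
    gr_congr (by rw [hS, hV]; ring) (C.push_mem p hy)
  have h4 : q = 0 := hasDegree_unique H h2 (hx.2 _ h3)
  rw [h4] at hq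
  exact hq

omit hH in
lemma act_pow_num (hS : S.dim = n) {a x : C.A S} (ha : a ∈ C.gr S 1)
    (hx : NumTrivial C r x) (c : ℚ) :
    C.act (c • (C.pull (fst S S) a + C.pull (snd S S) a) ^ n) x = 0 := by
  rw [act_smul', pow_eq_sum, act_sum, Finset.sum_eq_zero, smul_zero]
  intro j hj
  rw [act_smul']
  have h0 : a ^ j * x ∈ C.gr S ((j : ℤ) + r) := C.mul_mem (pow_mem' ha j) hx.1
  by_cases hjm : j + r = n
  · have h2 : HasDegree C (a ^ j * x) 0 := by
      rw [ch_comm C]
      exact hx.2 _ (gr_congr (by rw [hS]; omega) (pow_mem' ha j))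
    rw [act_ext' h2, zero_smul, smul_zero]
  · rw [act_ext_zero_of_lt h0 (by rw [hS]; omega), smul_zero]

/-- The functional `t ↦ deg (t y)`. -/
noncomputable def pr (H : WeilTheoryData.{u, v, w} C K) (X : 𝒱.Obj) (y : C.A X) :
    H.A X →ₗ[K] H.A X :=
  H.push (snd X X) ∘ₗ (H.pull (fst X X)).toLinearMap ∘ₗ LinearMap.mulRight K (H.cl y)

lemma pr_cl {x y : C.A X} {q : ℚ} (h : HasDegree C (x * y) q) :
    pr H X y (H.cl x) = sc H X q := by
  have h1 : pr H X y (H.cl x) = H.push (snd X X) (H.pull (fst X X) (H.cl x * H.cl y)) := rfl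
  rw [h1, ← map_mul, ← H.cl_pull, ← H.cl_push, (h X).1, sc, Algebra.algebraMap_eq_smul_one]

lemma sc_eq [CharZero K] (q : ℚ) (t : H.A X) : sc H X q * t = (q : K) • t := by
  have h1 : (H.cl (X := X)).comp (algebraMap ℚ (C.A X)) =
      (algebraMap K (H.A X)).comp (algebraMap ℚ K) := RingHom.ext_rat _ _
  have h2 : sc H X q = algebraMap K (H.A X) (q : K) := by
    have := RingHom.congr_fun h1 q
    simpa [sc] using this
  rw [h2, Algebra.smul_def]

section key

variable {T : ClassFamily H} {D : ℕ}

lemma classes_of_family {ι : Type} [Fintype ι] {N : ℕ} (hN : Fintype.card ι = N)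
    {t : ι → H.A X} (ht : ∀ i, T.Mem X r (t i)) (hli : LinearIndependent K t) :
    ClassesAtLeast T X r N := by
  let e := (Fintype.equivFinOfCardEq hN).symm
  exact ⟨t ∘ e, fun i => ht _, hli.comp e e.injective⟩

/-- A family which is independent of all algebraic classes is small. -/
lemma no_family (hT : ∀ (X : 𝒱.Obj) (z : C.A X), C.Deg r z → T.Mem X r (H.cl z))
    [Module.Finite K (H.A V)] (hV : V.dim = n) (hD : ExcessAtMost T n r D)
    (z : Fin (D + 1) → H.A V) (hz : ∀ i, T.Mem V r (z i))
    (hli : ∀ (e : ℕ) (x y : Fin e → C.A V), (∀ i, C.Deg r (x i)) →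
      (∀ j, C.Deg (V.dim - r) (y j)) →
      (∀ i j, HasDegree C (x i * y j) (if i = j then 1 else 0)) →
      LinearIndependent K (Sum.elim (fun i => H.cl (x i)) z)) : False := by
  classical
  have hbound : ∀ N, ClassesAtLeast T V r N → N ≤ Module.finrank K (H.A V) := by
    rintro N ⟨t, _, ht⟩
    simpa using ht.fintype_card_le_finrank
  let g := Nat.findGreatest (ClassesAtLeast T V r) (Module.finrank K (H.A V))
  have h0 : ClassesAtLeast T V r (D + 1) := by
    have h1 := hli 0 Fin.elim0 Fin.elim0 (fun i => i.elim0) (fun i => i.elim0) (fun i => i.elim0)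
    exact ⟨z, hz, h1.comp Sum.inr Sum.inr_injective⟩
  have hg : ClassesAtLeast T V r g := Nat.findGreatest_spec (hbound _ h0) h0
  have hgD : D + 1 ≤ g := Nat.le_findGreatest (hbound _ h0) h0
  obtain ⟨e, he⟩ : ∃ e, g = e + D := ⟨g - D, by omega⟩
  obtain ⟨x, hx, hind⟩ := hD V e hV (he ▸ hg)
  obtain ⟨y, hy, hxy⟩ := exists_dual (H := H) x hx hind
  have h2 := classes_of_family (T := T) (N := e + (D + 1)) (by simp)
    (t := Sum.elim (fun i => H.cl (x i)) z)
    (fun i => by
      rcases i with i | i
      · exact hT V _ (hx i)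
      · exact hz i) (hli e x y hx hy hxy)
  have h3 : e + (D + 1) ≤ g := Nat.le_findGreatest (hbound _ h2) h2
  omega

lemma cl_coeff_zero {e : ℕ} {x y : Fin e → C.A V}
    (hxy : ∀ i j, HasDegree C (x i * y j) (if i = j then 1 else 0)) {α : Fin e → K}
    {s : H.A V} (hs : ∀ j, pr H V (y j) s = 0) (h : ∑ i, α i • H.cl (x i) + s = 0) (j : Fin e) :
    α j = 0 := by
  have h1 := congrArg (pr H V (y j)) h
  rw [map_add, hs j, add_zero, map_zero, map_sum, Finset.sum_eq_single j] at h1
  · rw [map_smul, pr_cl (hxy j j), if_pos rfl] at h1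
    have h2 : sc H V 1 = 1 := by rw [sc, map_one, map_one]
    rw [h2] at h1
    rcases smul_eq_zero.1 h1 with h3 | h3
    · exact h3
    · exact absurd h3 (hH.one_ne_zero V)
  · intro i _ hij
    rw [map_smul, pr_cl (hxy i j), if_neg hij, sc, map_zero, map_zero, smul_zero]
  · intro h0
    exact absurd (Finset.mem_univ j) h0

end key

/-- **The excess of the number of distinguished classes over the rank vanishes if it is
bounded.** -/
theorem pole_main [CharZero K] (T : ClassFamily H)
    (hT : ∀ (X : 𝒱.Obj) (z : C.A X), C.Deg r z → T.Mem X r (H.cl z))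
    (hfin : ∀ X : 𝒱.Obj, Module.Finite K (H.A X))
    (hP : ∀ (S : 𝒱.Obj) (N : ℕ), S.dim = n → HasPower C n N S) :
    List.TFAE [ExcessAtMost T n r 0, ∃ D, ExcessAtMost T n r D,
      TateConj T n r ∧ NumIsHom H n r] := by
  tfae_have 1 → 2 := fun h => ⟨0, h⟩
  tfae_have 2 → 3 := by
    rintro ⟨D, hD⟩
    constructor
    · intro S t hS ht
      by_contra hne
      obtain ⟨V, p, a, c, κ, h⟩ := exists_pw hS (hP S (D + 1) hS)
      have := hfin V
      refine no_family hT h.dimV hD (fun i => H.pull (p i) t) (fun i => T.pull (p i) ht) ?_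
      intro e x y hx hy hxy
      rw [Fintype.linearIndependent_iff]
      intro g hg
      rw [Fintype.sum_sum_type] at hg
      simp only [Sum.elim_inl, Sum.elim_inr] at hg
      have hβ : ∀ j : Fin (D + 1), g (Sum.inr j) = 0 := by
        intro j
        by_contra hj
        apply hne
        have h1 := congrArg (H.push (p j)) hg
        rw [map_add, map_zero, map_sum (H.push (p j)) _ (Finset.univ : Finset (Fin (D + 1))),
          ← Finset.add_sum_erase _ _ (Finset.mem_univ j)] at h1
        have h2 : IsAlg H r (H.push (p j) (∑ i, g (Sum.inl i) • H.cl (x i))) :=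
          alg_push h.dimV h.dimS (p j) (alg_sum _ _ fun i _ => alg_smul _ (alg_cl (hx i)))
        have h3 : IsAlg H r (∑ i ∈ Finset.univ.erase j, H.push (p j) (g (Sum.inr i) •
            H.pull (p i) t)) := by
          apply alg_sum
          intro i hi
          rw [map_smul]
          exact alg_smul _ (h.push_pull_ne i.2 j.2
            (fun e => (Finset.mem_erase.1 hi).1 (Fin.ext e)) (T.deg ht))
        have h4 : IsAlg H r (g (Sum.inr j) • H.push (p j) (H.pull (p j) t)) := by
          have h5 : g (Sum.inr j) • H.push (p j) (H.pull (p j) t) = 0 -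
              H.push (p j) (∑ i, g (Sum.inl i) • H.cl (x i)) -
              ∑ i ∈ Finset.univ.erase j, H.push (p j) (g (Sum.inr i) • H.pull (p i) t) := by
            rw [← h1, map_smul (H.push (p j)) (g (Sum.inr j))]
            abel
          rw [h5]
          exact alg_sub (alg_sub alg_zero h2) h3
        have h6 := alg_smul (g (Sum.inr j))⁻¹ h4
        rw [smul_smul, inv_mul_cancel₀ hj, one_smul, h.push_pull j.2] at h6
        exact alg_of_sc h.hκ h6
      have hα : ∀ i : Fin e, g (Sum.inl i) = 0 := by
        refine cl_coeff_zero (H := H) (s := 0) hxy (fun j => map_zero _) ?_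
        rw [add_zero, ← hg]
        simp only [hβ, zero_smul, Finset.sum_const_zero, add_zero]
      rintro (i | i)
      · exact hα i
      · exact hβ i
    · intro S x hS hx
      by_contra hne
      obtain ⟨V, p, a, c, κ, h⟩ := exists_pw hS (hP S (D + 1) hS)
      have := hfin V
      refine no_family hT h.dimV hD (fun i => H.cl (C.pull (p i) x))
        (fun i => hT V _ (C.pull_mem _ hx.1)) ?_
      intro e x' y hx' hy hxy
      rw [Fintype.linearIndependent_iff]
      intro g hg
      rw [Fintype.sum_sum_type] at hg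
      simp only [Sum.elim_inl, Sum.elim_inr] at hg
      have hα : ∀ i : Fin e, g (Sum.inl i) = 0 := by
        refine cl_coeff_zero (H := H) hxy (fun j => ?_) hg
        rw [map_sum]
        apply Finset.sum_eq_zero
        intro i _
        have h0 : sc H V 0 = 0 := by rw [sc, map_zero, map_zero]
        rw [map_smul, pr_cl (H := H) ((num_pull H h.dimS h.dimV hx).2 (y j) (hy j)), h0,
          smul_zero]
      have hβ : ∀ j : Fin (D + 1), g (Sum.inr j) = 0 := by
        intro j
        by_contra hj
        apply hne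
        simp only [hα, zero_smul, Finset.sum_const_zero, zero_add] at hg
        have h1 := congrArg (H.push (p j)) hg
        rw [map_sum, map_zero, Finset.sum_eq_single j] at h1
        · rw [map_smul, ← H.cl_push, push_pull_of (h.pp j j.2)] at h1
          have h2 : H.cl (κ • x) = 0 := (smul_eq_zero.1 h1).resolve_left hj
          have h3 : x = κ⁻¹ • (κ • x) := by rw [smul_smul, inv_mul_cancel₀ h.hκ, one_smul]
          rw [h3, Algebra.smul_def, map_mul, h2, mul_zero]
        · intro i _ hij
          have h4 : C.push (p j) (C.pull (p i) x) = 0 := by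
            rw [← C.act_graph, ← C.act_cograph, ← C.act_comp, cog_gr,
              h.pq i i.2 j j.2 (fun e => hij (Fin.ext e))]
            exact act_pow_num h.dimS h.ha hx c
          rw [map_smul, ← H.cl_push, h4, map_zero, smul_zero]
        · intro h0
          exact absurd (Finset.mem_univ j) h0
      rintro (i | i)
      · exact hα i
      · exact hβ i
  tfae_have 3 → 1 := by
    rintro ⟨h1, h2⟩ X e hX ⟨t, ht, hli⟩
    have := hfin X
    let s : Set (H.A X) := {y : H.A X | ∃ z : C.A X, C.Deg r z ∧ y = H.cl z}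
    obtain ⟨b, hbs, hspan, hb⟩ := exists_linearIndependent K s
    have hfb : Finite b := hb.setFinite
    have hfb' : Fintype b := Fintype.ofFinite b
    have hcard : e ≤ Fintype.card b := by
      have h3 : ∀ i, t i ∈ Submodule.span K (Set.range ((↑) : b → H.A X)) := by
        intro i
        rw [Subtype.range_coe, hspan]
        exact h1 X (t i) hX (ht i)
      have h4 := LinearIndependent.fintype_card_le_finrank (R := K)
        (M := Submodule.span K (Set.range ((↑) : b → H.A X)))
        (b := fun i => ⟨t i, h3 i⟩) (by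
          apply LinearIndependent.of_comp (Submodule.subtype _)
          exact hli)
      rw [finrank_span_eq_card hb] at h4
      simpa using h4
    obtain ⟨f⟩ : Nonempty (Fin e ↪ b) := by
      rw [Function.Embedding.nonempty_iff_card_le]
      simpa using hcard
    choose z hz hz2 using fun i : Fin e => hbs (f i).2
    refine ⟨z, hz, fun α hα => ?_⟩
    have h3 := h2 X _ hX hα
    have h4 : ∑ i, (α i : K) • ((f i : b) : H.A X) = 0 := by
      rw [← h3, map_sum]
      refine Finset.sum_congr rfl fun i _ => ?_
      rw [hz2 i, ← sc_eq, sc, ← map_mul, ← Algebra.smul_def]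
    have h5 := Fintype.linearIndependent_iff.1 (hb.comp f f.injective) (fun i => (α i : K)) h4
    funext i
    exact_mod_cast h5 i
  tfae_finish

end Pool.Agent.V1157.PO
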