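import Pool.Agent.V1157.BD.Defs
import Pool.Agent.TH133.Defs

/-!
# Orders of poles and ranks: definitions
-/

open CategoryTheory AlgebraicGeometry

universe u v w

namespace Pool.Agent.V1157.PO

open Pool.Agent.H914 Pool.Agent.H914.VarClass Pool.Agent.H914.VarClass.Obj Pool.Agent.W492.BB
  Pool.Agent.TH133 Pool.Agent.V1157.BD

variable {k : Type u} [Field k] {𝒱 : VarClass k} {C : TheoryData.{u, v, 0} 𝒱 ℚ} {K : Type w}
  [Field K] {H : WeilTheoryData.{u, v, w} C K}

/-- The cycle `x` of codimension `r` on `X` is numerically trivial. -/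
def NumTrivial (C : TheoryData.{u, v, 0} 𝒱 ℚ) (r : ℕ) {X : 𝒱.Obj} (x : C.A X) : Prop :=
  C.Deg r x ∧ ∀ y : C.A X, C.Deg (X.dim - r) y → HasDegree C (C.mul x y) 0

/-- The rank of the group of cycles of codimension `r` on `X` modulo numerical equivalence is at
least `e`. -/
def RankAtLeast (C : TheoryData.{u, v, 0} 𝒱 ℚ) (X : 𝒱.Obj) (r e : ℕ) : Prop :=
  ∃ x : Fin e → C.A X, (∀ i, C.Deg r (x i)) ∧
    ∀ α : Fin e → ℚ, NumTrivial C r (∑ i, α i • x i) → α = 0

/-- There are `e` linearly independent distinguished classes of codimension `r` on `X`. -/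
def ClassesAtLeast (T : ClassFamily H) (X : 𝒱.Obj) (r e : ℕ) : Prop :=
  ∃ t : Fin e → H.A X, (∀ i, T.Mem X r (t i)) ∧ LinearIndependent K t

/-- On each variety of dimension `n` the dimension of the space spanned by the distinguished classes
of codimension `r` exceeds the rank of the group of cycles of codimension `r` modulo numerical
equivalence by at most `D`. -/
def ExcessAtMost (T : ClassFamily H) (n r D : ℕ) : Prop :=
  ∀ (X : 𝒱.Obj) (e : ℕ), X.dim = n → ClassesAtLeast T X r (e + D) → RankAtLeast C X r e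

/-- Numerically trivial cycles of codimension `r` on the varieties of dimension `n` are
homologically trivial. -/
def NumIsHom (H : WeilTheoryData.{u, v, w} C K) (n r : ℕ) : Prop :=
  ∀ (X : 𝒱.Obj) (x : C.A X), X.dim = n → NumTrivial C r x → H.cl x = 0

end Pool.Agent.V1157.PO
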